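import Pool.Agent.Y915.Stm2

set_option autoImplicit false

/-!
# Étale algebras over `ℤ[x]` carry `d/dx` with divided powers
-/

namespace Pool.Agent.Y870.PC

open scoped PowerSeries Polynomial Nat
open Function

section general

variable {R A B C : Type} [CommRing R] [CommRing A] [Algebra R A] [CommRing B] [CommRing C]

theorem lift_hom [Algebra.FormallySmooth R A] (ph : R →+* B) (π : B →+* C) (hs : Surjective π)
    (hn : IsNilpotent (RingHom.ker π)) (g : A →+* C)
    (hg : ∀ r, g (algebraMap R A r) = π (ph r)) :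
    ∃ f : A →+* B, (∀ r, f (algebraMap R A r) = ph r) ∧ ∀ a, π (f a) = g a := by
  letI : Algebra R B := ph.toAlgebra
  letI : Algebra R C := (π.comp ph).toAlgebra
  let π' : B →ₐ[R] C := { π with commutes' := fun r => rfl }
  let g' : A →ₐ[R] C := { g with commutes' := fun r => hg r }
  have hs' : Surjective π' := hs
  have hn' : IsNilpotent (RingHom.ker π') := hn
  refine ⟨(Algebra.FormallySmooth.liftOfSurjective g' π' hs' hn').toRingHom, ?_, ?_⟩
  · intro r
    exact (Algebra.FormallySmooth.liftOfSurjective g' π' hs' hn').commutes r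
  · intro a
    exact Algebra.FormallySmooth.liftOfSurjective_apply g' π' hs' hn' a

theorem ext_hom [Algebra.FormallyUnramified R A] (π : B →+* C)
    (hn : IsNilpotent (RingHom.ker π)) (f₁ f₂ : A →+* B)
    (h : ∀ r, f₁ (algebraMap R A r) = f₂ (algebraMap R A r))
    (h' : ∀ a, π (f₁ a) = π (f₂ a)) : f₁ = f₂ := by
  letI : Algebra R B := (f₁.comp (algebraMap R A)).toAlgebra
  let g₁ : A →ₐ[R] B := { f₁ with commutes' := fun r => rfl }
  let g₂ : A →ₐ[R] B := { f₂ with commutes' := fun r => (h r).symm }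
  have e := Algebra.FormallyUnramified.ext' π hn g₁ g₂ h'
  ext a
  exact congrArg (fun g : A →ₐ[R] B => g a) e

end general

/-- two ring homomorphisms on `ℤ[X]` -/
theorem int_ext {B : Type} [CommRing B] (f g : ℤ[X] →+* B) (h : f Polynomial.X = g Polynomial.X)
    (r : ℤ[X]) : f r = g r := by
  have : f = g := Polynomial.ringHom_ext' (Subsingleton.elim _ _) h
  rw [this]

section trunc

variable (A : Type) [CommRing A]

/-- the constant coefficient on a truncated power series ring -/
noncomputable def cc (m : ℕ) :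
    A⟦X⟧ ⧸ Ideal.span {(PowerSeries.X : A⟦X⟧) ^ (m + 1)} →+* A :=
  Ideal.Quotient.lift _ (PowerSeries.constantCoeff (R := A)) (by
    intro a ha
    rw [Ideal.mem_span_singleton] at ha
    obtain ⟨b, rfl⟩ := ha
    simp)

theorem cc_mk (m : ℕ) (P : A⟦X⟧) :
    cc A m (Ideal.Quotient.mk _ P) = PowerSeries.constantCoeff P := rfl

theorem cc_surj (m : ℕ) : Surjective (cc A m) := by
  intro a
  exact ⟨Ideal.Quotient.mk _ (PowerSeries.C a), by rw [cc_mk]; simp⟩

theorem cc_nil (m : ℕ) : IsNilpotent (RingHom.ker (cc A m)) := by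
  set J := Ideal.span {(PowerSeries.X : A⟦X⟧) ^ (m + 1)} with hJ
  have h1 : RingHom.ker (cc A m) ≤
      Ideal.map (Ideal.Quotient.mk J) (Ideal.span {(PowerSeries.X : A⟦X⟧)}) := by
    intro b hb
    obtain ⟨P, rfl⟩ := Ideal.Quotient.mk_surjective b
    rw [RingHom.mem_ker, cc_mk] at hb
    apply Ideal.mem_map_of_mem
    rw [Ideal.mem_span_singleton]
    exact PowerSeries.X_dvd_iff.2 hb
  refine ⟨m + 1, ?_⟩
  have h2 := Ideal.pow_right_mono h1 (m + 1)
  have h3 : Ideal.map (Ideal.Quotient.mk J) (Ideal.span {(PowerSeries.X : A⟦X⟧) ^ (m + 1)}) = ⊥ :=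
    Ideal.map_quotient_self J
  rw [← Ideal.map_pow, Ideal.span_singleton_pow, h3] at h2
  exact le_bot_iff.1 h2

end trunc

section der

variable {A : Type} [CommRing A]

theorem leib (D : Derivation ℤ A A) (n : ℕ) (a b : A) :
    D^[n] (a * b) = ∑ ij ∈ Finset.HasAntidiagonal.antidiagonal n, n.choose ij.1 • (D^[ij.1] a * D^[ij.2] b) := by
  induction n with
  | zero => simp
  | succ n ih =>
    rw [Finset.sum_antidiagonal_choose_succ_nsmul (fun i j => D^[i] a * D^[j] b) n,
      iterate_succ_apply', ih, map_sum, ← Finset.sum_add_distrib]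
    apply Finset.sum_congr rfl
    rintro ⟨i, j⟩ hij
    rw [map_nsmul, D.leibniz, smul_eq_mul, smul_eq_mul, iterate_succ_apply', iterate_succ_apply',
      n.choose_symm_of_eq_add (Finset.HasAntidiagonal.mem_antidiagonal.1 hij).symm, ← smul_add]
    congr 1
    ring

theorem iter_add (D : Derivation ℤ A A) (n : ℕ) (a b : A) :
    D^[n] (a + b) = D^[n] a + D^[n] b := by
  induction n with
  | zero => rfl
  | succ n ih => rw [iterate_succ_apply', iterate_succ_apply', iterate_succ_apply', ih, map_add]

theorem iter_zero (D : Derivation ℤ A A) (n : ℕ) : D^[n] (0 : A) = 0 := by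
  induction n with
  | zero => rfl
  | succ n ih => rw [iterate_succ_apply', ih, map_zero]

theorem iter_one (D : Derivation ℤ A A) (n : ℕ) (hn : n ≠ 0) : D^[n] (1 : A) = 0 := by
  obtain ⟨k, rfl⟩ := Nat.exists_eq_succ_of_ne_zero hn
  rw [iterate_succ_apply, D.map_one_eq_zero, iter_zero]

/-- the Taylor series -/
noncomputable def taylor (K : Type) [Field K] [CharZero K] (ι : A →+* K) (D : Derivation ℤ A A) :
    A →+* K⟦X⟧ where
  toFun g := PowerSeries.mk (fun n => ((n ! : ℕ) : K)⁻¹ * ι (D^[n] g))
  map_one' := by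
    ext n
    rw [PowerSeries.coeff_mk, PowerSeries.coeff_one]
    by_cases hn : n = 0
    · subst hn; simp
    · rw [if_neg hn, iter_one D n hn, map_zero, mul_zero]
  map_zero' := by
    ext n
    rw [PowerSeries.coeff_mk, iter_zero, map_zero, mul_zero]
    simp
  map_add' a b := by
    ext n
    rw [PowerSeries.coeff_mk, map_add, PowerSeries.coeff_mk, PowerSeries.coeff_mk, iter_add,
      map_add, mul_add]
  map_mul' a b := by
    ext n
    rw [PowerSeries.coeff_mk, PowerSeries.coeff_mul, leib, map_sum, Finset.mul_sum]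
    apply Finset.sum_congr rfl
    rintro ⟨i, j⟩ hij
    rw [Finset.HasAntidiagonal.mem_antidiagonal] at hij
    simp only at hij
    rw [PowerSeries.coeff_mk, PowerSeries.coeff_mk, map_nsmul, map_mul, nsmul_eq_mul]
    simp only
    have h1 : ((n ! : ℕ) : K) ≠ 0 := by exact_mod_cast n.factorial_ne_zero
    have h2 : ((i ! : ℕ) : K) ≠ 0 := by exact_mod_cast i.factorial_ne_zero
    have h3 : ((j ! : ℕ) : K) ≠ 0 := by exact_mod_cast j.factorial_ne_zero
    have h4 : ((n.choose i : ℕ) : K) * ((i ! : ℕ) : K) * ((j ! : ℕ) : K) = ((n ! : ℕ) : K) := by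
      have := Nat.choose_mul_factorial_mul_factorial (n := n) (k := i) (by omega)
      have h5 : n - i = j := by omega
      rw [h5] at this
      exact_mod_cast this
    rw [← h4]
    have h6 : ((n.choose i : ℕ) : K) ≠ 0 := by
      exact_mod_cast (Nat.choose_pos (by omega)).ne'
    field_simp

theorem coeff_taylor (K : Type) [Field K] [CharZero K] (ι : A →+* K) (D : Derivation ℤ A A)
    (g : A) (n : ℕ) : PowerSeries.coeff n (taylor K ι D g) = ((n ! : ℕ) : K)⁻¹ * ι (D^[n] g) := by
  change PowerSeries.coeff n (PowerSeries.mk (fun n => ((n ! : ℕ) : K)⁻¹ * ι (D^[n] g))) = _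
  rw [PowerSeries.coeff_mk]

theorem const_taylor (K : Type) [Field K] [CharZero K] (ι : A →+* K) (D : Derivation ℤ A A)
    (g : A) : PowerSeries.constantCoeff (taylor K ι D g) = ι g := by
  rw [← PowerSeries.coeff_zero_eq_constantCoeff_apply, coeff_taylor]
  simp

theorem taylor_x (K : Type) [Field K] [CharZero K] (ι : A →+* K) (D : Derivation ℤ A A)
    (x : A) (hx : D x = 1) : taylor K ι D x = PowerSeries.C (ι x) + PowerSeries.X := by
  ext n
  rw [coeff_taylor, map_add, PowerSeries.coeff_C, PowerSeries.coeff_X]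
  rcases n with _ | _ | n
  · simp
  · simp [hx]
  · rw [iterate_succ_apply, hx, iter_one D (n + 1) (by omega)]
    simp

/-- the ring homomorphism of a derivation -/
def derHom (D : Derivation ℤ A A) : A →+* TrivSqZeroExt A A where
  toFun a := TrivSqZeroExt.inl a + TrivSqZeroExt.inr (D a)
  map_one' := by simp
  map_zero' := by simp
  map_add' a b := by
    ext <;> simp
  map_mul' a b := by
    ext
    · simp
    · simp [D.leibniz]
      ring

theorem derHom_fst (D : Derivation ℤ A A) (a : A) : (derHom D a).fst = a := by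
  simp [derHom]

theorem derHom_snd (D : Derivation ℤ A A) (a : A) : (derHom D a).snd = D a := by
  simp [derHom]

/-- first component -/
def fstH (A : Type) [CommRing A] : TrivSqZeroExt A A →+* A :=
  (TrivSqZeroExt.fstHom A A A).toRingHom

theorem fstH_apply (a : TrivSqZeroExt A A) : fstH A a = a.fst := rfl

theorem fstH_surj : Surjective (fstH A) := fun a =>
  ⟨TrivSqZeroExt.inl a, by rw [fstH_apply]; simp⟩

theorem fstH_nil : IsNilpotent (RingHom.ker (fstH A)) := by
  have key : RingHom.ker (fstH A) * RingHom.ker (fstH A) = ⊥ := by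
    rw [← le_bot_iff, Ideal.mul_le]
    intro r hr s hs
    rw [RingHom.mem_ker, fstH_apply] at hr hs
    rw [Ideal.mem_bot]
    ext
    · simp [hr]
    · simp [hr, hs]
  refine ⟨2, ?_⟩
  rw [Submodule.pow_succ, Submodule.pow_one]
  exact key

end der

section etale

variable {A : Type} [CommRing A] [Algebra ℤ[X] A]

theorem exists_der [Algebra.FormallySmooth ℤ[X] A] :
    ∃ D : Derivation ℤ A A, D (algebraMap ℤ[X] A Polynomial.X) = 1 := by
  set x := algebraMap ℤ[X] A Polynomial.X with hx
  set ph : ℤ[X] →+* TrivSqZeroExt A A := Polynomial.eval₂RingHom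
    (Int.castRingHom (TrivSqZeroExt A A)) (TrivSqZeroExt.inl x + TrivSqZeroExt.inr 1) with hph
  have hphX : ph Polynomial.X = TrivSqZeroExt.inl x + TrivSqZeroExt.inr 1 := by
    rw [hph, Polynomial.coe_eval₂RingHom, Polynomial.eval₂_X]
  obtain ⟨f, hf1, hf2⟩ := lift_hom ph (fstH A) fstH_surj fstH_nil (RingHom.id A) (by
    intro r
    have := int_ext (algebraMap ℤ[X] A) ((fstH A).comp ph) (by
      rw [RingHom.comp_apply, hphX, fstH_apply]
      simp [hx]) r
    exact this)
  have h1 : ∀ a, (f a).fst = a := fun a => hf2 a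
  have h2 : ∀ a b, (f (a * b)).snd = a * (f b).snd + b * (f a).snd := by
    intro a b
    rw [map_mul, TrivSqZeroExt.snd_mul, h1, h1]
    simp [mul_comm]
  let L : A →ₗ[ℤ] A := AddMonoidHom.toIntLinearMap
    { toFun := fun a => (f a).snd
      map_zero' := by rw [map_zero]; rfl
      map_add' := fun a b => by rw [map_add]; rfl }
  refine ⟨Derivation.mk' L (fun a b => h2 a b), ?_⟩
  change (f x).snd = 1
  rw [hx, hf1, hphX]
  simp

theorem der_unique [Algebra.FormallyUnramified ℤ[X] A] (D D' : Derivation ℤ A A)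
    (h : D (algebraMap ℤ[X] A Polynomial.X) = 1) (h' : D' (algebraMap ℤ[X] A Polynomial.X) = 1) :
    D' = D := by
  have h1 : derHom D' = derHom D := by
    apply ext_hom (R := ℤ[X]) (fstH A) fstH_nil
    · intro r
      apply int_ext ((derHom D').comp (algebraMap ℤ[X] A)) ((derHom D).comp (algebraMap ℤ[X] A))
      rw [RingHom.comp_apply, RingHom.comp_apply]
      ext
      · rw [derHom_fst, derHom_fst]
      · rw [derHom_snd, derHom_snd, h, h']
    · intro a
      rw [fstH_apply, fstH_apply, derHom_fst, derHom_fst]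
  ext a
  rw [← derHom_snd, ← derHom_snd, h1]

theorem hdp_of [IsDomain A] [CharZero A] [Algebra.FormallySmooth ℤ[X] A]
    [Algebra.FormallyUnramified ℤ[X] A] (D : Derivation ℤ A A)
    (hD : D (algebraMap ℤ[X] A Polynomial.X) = 1) (m : ℕ) (g : A) :
    ((m ! : ℕ) : A) ∣ D^[m] g := by
  set x := algebraMap ℤ[X] A Polynomial.X with hx
  set K := FractionRing A with hK
  set ι := algebraMap A K with hι
  have hιi : Injective ι := IsFractionRing.injective A K
  haveI : CharZero K := charZero_of_injective_algebraMap hιi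
  set J := Ideal.span {(PowerSeries.X : A⟦X⟧) ^ (m + 1)} with hJ
  set J' := Ideal.span {(PowerSeries.X : K⟦X⟧) ^ (m + 1)} with hJ'
  set ph : ℤ[X] →+* A⟦X⟧ ⧸ J := Polynomial.eval₂RingHom (Int.castRingHom _)
    (Ideal.Quotient.mk J (PowerSeries.C x + PowerSeries.X)) with hph
  have hphX : ph Polynomial.X = Ideal.Quotient.mk J (PowerSeries.C x + PowerSeries.X) := by
    rw [hph, Polynomial.coe_eval₂RingHom, Polynomial.eval₂_X]
  obtain ⟨T, hT1, hT2⟩ := lift_hom ph (cc A m) (cc_surj A m) (cc_nil A m) (RingHom.id A) (by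
    intro r
    have := int_ext (algebraMap ℤ[X] A) ((cc A m).comp ph) (by
      rw [RingHom.comp_apply, hphX, cc_mk]
      simp [hx]) r
    exact this)
  set Q : A⟦X⟧ ⧸ J →+* K⟦X⟧ ⧸ J' := Ideal.Quotient.lift J
    ((Ideal.Quotient.mk J').comp (PowerSeries.map ι)) (by
      intro a ha
      rw [hJ, Ideal.mem_span_singleton] at ha
      obtain ⟨b, rfl⟩ := ha
      rw [RingHom.comp_apply, Ideal.Quotient.eq_zero_iff_mem, hJ', Ideal.mem_span_singleton,
        map_mul, map_pow, PowerSeries.map_X]
      exact dvd_mul_right _ _) with hQ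
  have hQmk : ∀ P, Q (Ideal.Quotient.mk J P) = Ideal.Quotient.mk J' (PowerSeries.map ι P) :=
    fun P => rfl
  have hcomp : Q.comp T = (Ideal.Quotient.mk J').comp (taylor K ι D) := by
    apply ext_hom (R := ℤ[X]) (cc K m) (cc_nil K m)
    · intro r
      apply int_ext ((Q.comp T).comp (algebraMap ℤ[X] A))
        (((Ideal.Quotient.mk J').comp (taylor K ι D)).comp (algebraMap ℤ[X] A))
      rw [RingHom.comp_apply, RingHom.comp_apply, RingHom.comp_apply, RingHom.comp_apply, hT1,
        hphX, hQmk, ← hx, taylor_x K ι D x hD, map_add, PowerSeries.map_C, PowerSeries.map_X]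
    · intro a
      rw [RingHom.comp_apply, RingHom.comp_apply, cc_mk, const_taylor]
      obtain ⟨P, hP⟩ := Ideal.Quotient.mk_surjective (T a)
      have h1 := hT2 a
      rw [← hP, cc_mk, RingHom.id_apply] at h1
      rw [← hP, hQmk, cc_mk, ← h1, ← PowerSeries.coeff_zero_eq_constantCoeff_apply,
        ← PowerSeries.coeff_zero_eq_constantCoeff_apply, PowerSeries.coeff_map]
  obtain ⟨P, hP⟩ := Ideal.Quotient.mk_surjective (T g)
  have h1 : Q (T g) = Ideal.Quotient.mk J' (taylor K ι D g) :=
    congrArg (fun f : A →+* K⟦X⟧ ⧸ J' => f g) hcomp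
  rw [← hP, hQmk, Ideal.Quotient.eq, hJ', Ideal.mem_span_singleton,
    PowerSeries.X_pow_dvd_iff] at h1
  have h2 := h1 m (Nat.lt_succ_self m)
  rw [map_sub, PowerSeries.coeff_map, coeff_taylor, sub_eq_zero] at h2
  have h3 : ((m ! : ℕ) : K) ≠ 0 := by exact_mod_cast m.factorial_ne_zero
  refine ⟨PowerSeries.coeff m P, hιi ?_⟩
  rw [map_mul, map_natCast, h2, mul_inv_cancel_left₀ h3]

theorem inj_of [CharZero A] (D : Derivation ℤ A A)
    (hD : D (algebraMap ℤ[X] A Polynomial.X) = 1) : Injective (algebraMap ℤ[X] A) := by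
  have key : ∀ n : ℕ, ∀ P : ℤ[X], P.natDegree ≤ n → algebraMap ℤ[X] A P = 0 → P = 0 := by
    have hder : ∀ P : ℤ[X], D (algebraMap ℤ[X] A P) =
        algebraMap ℤ[X] A (Polynomial.derivative P) := by
      intro P
      induction P using Polynomial.induction_on' with
      | add p q hp hq => rw [map_add, map_add, hp, hq, map_add, map_add]
      | monomial k a =>
        rw [← Polynomial.C_mul_X_pow_eq_monomial, map_mul, map_pow]
        have e1 : algebraMap ℤ[X] A (Polynomial.C a) = (a : A) := by simp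
        rw [e1, D.leibniz, D.leibniz_pow, hD, Derivation.map_intCast,
          Polynomial.derivative_C_mul_X_pow]
        simp
        ring
    intro n
    induction n with
    | zero =>
      intro P hP h0
      rw [Nat.le_zero] at hP
      rw [Polynomial.eq_C_of_natDegree_eq_zero hP] at h0 ⊢
      have e1 : algebraMap ℤ[X] A (Polynomial.C (P.coeff 0)) = ((P.coeff 0 : ℤ) : A) := by simp
      rw [e1] at h0
      have : P.coeff 0 = 0 := by exact_mod_cast h0
      rw [this, map_zero]
    | succ n ih =>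
      intro P hP h0
      have h1 : Polynomial.derivative P = 0 := by
        apply ih
        · exact (Polynomial.natDegree_derivative_le P).trans (by omega)
        · rw [← hder, h0, map_zero]
      have h2 : P.natDegree = 0 := Polynomial.derivative_eq_zero.1 h1
      rw [Polynomial.eq_C_of_natDegree_eq_zero h2] at h0 ⊢
      have e1 : algebraMap ℤ[X] A (Polynomial.C (P.coeff 0)) = ((P.coeff 0 : ℤ) : A) := by simp
      rw [e1] at h0
      have : P.coeff 0 = 0 := by exact_mod_cast h0
      rw [this, map_zero]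
  rw [injective_iff_map_eq_zero]
  intro P hP
  exact key P.natDegree P le_rfl hP

theorem alg_of [IsDomain A] [Algebra.Etale ℤ[X] A] (hi : Injective (algebraMap ℤ[X] A)) (g : A) :
    ∃ P : ℤ[X][X], P ≠ 0 ∧ Polynomial.aeval g P = 0 := by
  set K := FractionRing A with hK
  set F := FractionRing ℤ[X] with hF
  haveI : FaithfulSMul ℤ[X] K := by
    rw [faithfulSMul_iff_algebraMap_injective, IsScalarTower.algebraMap_eq ℤ[X] A K]
    exact (IsFractionRing.injective A K).comp hi
  letI : Algebra F K := FractionRing.liftAlgebra ℤ[X] K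
  haveI : IsScalarTower ℤ[X] F K := FractionRing.isScalarTower_liftAlgebra ℤ[X] K
  haveI : Algebra.FormallyUnramified A K :=
    Algebra.FormallyUnramified.of_isLocalization (nonZeroDivisors A)
  haveI : Algebra.FormallyUnramified ℤ[X] K := Algebra.FormallyUnramified.comp ℤ[X] A K
  haveI : Algebra.FormallyUnramified F K := Algebra.FormallyUnramified.of_restrictScalars ℤ[X] F K
  haveI : Algebra.EssFiniteType A K := Algebra.EssFiniteType.of_isLocalization K (nonZeroDivisors A)
  haveI : Algebra.EssFiniteType ℤ[X] K := Algebra.EssFiniteType.comp ℤ[X] A K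
  haveI : Algebra.EssFiniteType F K := Algebra.EssFiniteType.of_comp ℤ[X] F K
  haveI : Algebra.IsSeparable F K := Algebra.FormallyUnramified.isSeparable F K
  have h1 : IsAlgebraic F (algebraMap A K g) :=
    (Algebra.IsSeparable.isSeparable F (algebraMap A K g)).isIntegral.isAlgebraic
  have h2 : IsAlgebraic ℤ[X] (algebraMap A K g) :=
    (IsFractionRing.isAlgebraic_iff ℤ[X] F K).2 h1
  obtain ⟨P, hP, hPg⟩ := h2
  refine ⟨P, hP, ?_⟩
  rw [Polynomial.aeval_algebraMap_apply] at hPg
  exact (map_eq_zero_iff _ (IsFractionRing.injective A K)).1 hPg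

end etale

theorem etale : Pool.Agent.Y915.StEtale := by
  intro A _ _ _ _ e he
  haveI hc : CharZero A := ⟨fun a b h => by
    have := congrArg e h
    simpa using this⟩
  obtain ⟨D, hD⟩ := exists_der (A := A)
  refine ⟨hc, D, ⟨fun a b => map_add D a b, ?_, hD, he, hdp_of D hD, ?_⟩,
    fun D' hD' => der_unique D D' hD hD'⟩
  · intro a b
    rw [D.leibniz, smul_eq_mul, smul_eq_mul]
  · intro g
    obtain ⟨P, hP, hPg⟩ := alg_of (inj_of D hD) g
    refine ⟨P, hP, ?_⟩
    have h1 : Polynomial.eval₂RingHom (Int.castRingHom A) (algebraMap ℤ[X] A Polynomial.X) =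
        algebraMap ℤ[X] A := by
      apply Polynomial.ringHom_ext' (Subsingleton.elim _ _)
      simp
    rw [h1]
    exact hPg

end Pool.Agent.Y870.PC
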